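import Mathlib
import Pool.Agent.H50.SurjDefs
import Pool.Agent.H50.SurjSub

set_option autoImplicit false

open Pool.Agent.H50.Surj

namespace Pool.Agent.Results.MP_238286_an.LocalSubmonoids

/-- Every monoid that embeds as a semigroup in a surjunctive monoid is surjunctive (the identity
of `N` may go to any idempotent of `M`). -/
theorem result : ∀ (M N : Type) [Monoid M] [Monoid N] (φ : N → M),
    (∀ a b : N, φ (a * b) = φ a * φ b) → Function.Injective φ →
    Surjunctive M → Surjunctive N := by
  intro M N _ _ φ hφ hinj hM
  exact surjunctive_of_injective_mulHom (⟨φ, hφ⟩ : N →ₙ* M) hinj hM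

end Pool.Agent.Results.MP_238286_an.LocalSubmonoids
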