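import Mathlib
import Pool.Agent.H50.SurjDefs
import Pool.Agent.H50.SurjSub

set_option autoImplicit false

open Pool.Agent.H50.Surj

namespace Pool.Agent.Results.MP_238286_an.NoBicyclic

/-- There is a non-surjunctive monoid in which a product is the identity only when both factors
are; so it contains no submonoid isomorphic to the bicyclic monoid. -/
theorem result : ∃ (M : Type) (_ : Monoid M),
    (∀ a b : M, a * b = 1 → a = 1 ∧ b = 1) ∧ ¬ Surjunctive M := by
  refine ⟨WithOne (Function.End ℕ), inferInstance, fun a b h => withOne_mul_eq_one h, ?_⟩
  let p : Function.End ℕ := Nat.pred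
  let q : Function.End ℕ := Nat.succ
  apply not_surjunctive_withOne p q
  · rfl
  · intro h
    have := congrFun h 0
    exact absurd this (Nat.succ_ne_zero _)

end Pool.Agent.Results.MP_238286_an.NoBicyclic
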