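import Mathlib
import Pool.Agent.H50.SurjDefs
import Pool.Agent.H50.SurjMain

set_option autoImplicit false

open Pool.Agent.H50.Surj

namespace Pool.Agent.Results.MP_238286_an.OneSidedOp

/-- Q1 for all monoids in which only units have fixed points on one side and the left stabilizers
in the group of units are finite. -/
theorem result : ∀ (M : Type) [Monoid M],
    ((∀ s m : M, s * m = m → IsUnit s) ∨ (∀ s m : M, m * s = m → IsUnit s)) →
    (∀ m : M, {u : Mˣ | (u : M) * m = m}.Finite) →
    Surjunctive M → Surjunctive Mᵐᵒᵖ := by
  intro M _ h hfin hM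
  exact surjunctive_op h hfin hM

end Pool.Agent.Results.MP_238286_an.OneSidedOp
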