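import Mathlib
import Pool.Agent.H50.SurjDefs
import Pool.Agent.H50.SurjMain

set_option autoImplicit false

open Pool.Agent.H50.Surj

namespace Pool.Agent.Results.MP_238286_an.UnitsCriterion

/-- A monoid in which only units have fixed points on one side and the right stabilizers in the
group of units are finite is surjunctive if and only if its group of units is. -/
theorem result : ∀ (M : Type) [Monoid M],
    ((∀ s m : M, s * m = m → IsUnit s) ∨ (∀ s m : M, m * s = m → IsUnit s)) →
    (∀ m : M, {u : Mˣ | m * (u : M) = m}.Finite) →
    (Surjunctive M ↔ Surjunctive Mˣ) := by
  intro M _ h hfin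
  exact surjunctive_iff_units h hfin

end Pool.Agent.Results.MP_238286_an.UnitsCriterion
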